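import Pool.Agent.helper58.FI.SpecC

set_option autoImplicit false

namespace Pool.Agent.FI

open Pool.Agent.helper58.DC Pool.Agent.DI Pool.Agent.GR Pool.Agent.OB Pool.Agent.DR

theorem FCY_aux (V : Type) [AddCommGroup V] [Finite V] [Nontrivial V] (T : Type) [Group T]
    (ρ : T →* AddMonoid.End V) (hcomm : ∀ s t, ρ s * ρ t = ρ t * ρ s)
    (hfree : ∀ t, ∀ v : V, v ≠ 0 → ρ t v = v → ρ t = 1) :
    ∃ s : T, ∀ x : T, ∃ k : ℤ, ρ (s ^ k * x) = 1 := by
  classical
  have : Finite (AddMonoid.End V) :=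
    Finite.of_injective (fun f : V →+ V => (f : V → V)) DFunLike.coe_injective
  have : Nontrivial (AddMonoid.End V) := by
    obtain ⟨v, hv⟩ := exists_ne (0 : V)
    exact ⟨⟨1, 0, fun h => hv (by simpa using congrArg (fun e : AddMonoid.End V => e v) h)⟩⟩
  let S : Subring (AddMonoid.End V) := Subring.closure (Set.range ρ)
  let _ : CommRing S := Subring.closureCommRingOfComm (by
    rintro _ ⟨s, rfl⟩ _ ⟨t, rfl⟩
    exact hcomm s t)
  have : Finite S := inferInstance
  have : Nontrivial S := inferInstance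
  obtain ⟨m, hm⟩ := Ideal.exists_maximal S
  have : IsDomain (S ⧸ m) := (Ideal.Quotient.isDomain_iff_prime m).2 hm.isPrime
  let r : T → S := fun t => ⟨ρ t, Subring.subset_closure ⟨t, rfl⟩⟩
  have hr1 : r 1 = 1 := Subtype.ext (map_one ρ)
  have hrm : ∀ a b, r (a * b) = r a * r b := fun a b => Subtype.ext (map_mul ρ a b)
  let f : T →* (S ⧸ m) :=
    { toFun := fun t => Ideal.Quotient.mk m (r t)
      map_one' := by
        change Ideal.Quotient.mk m (r 1) = 1
        rw [hr1, map_one]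
      map_mul' := fun a b => by
        change Ideal.Quotient.mk m (r (a * b)) = Ideal.Quotient.mk m (r a) * Ideal.Quotient.mk m (r b)
        rw [hrm, map_mul] }
  have key : ∀ t, f t = 1 → ρ t = 1 := by
    intro t ht
    by_contra hne
    have hinj : ∀ v : V, ρ t v = v → v = 0 := fun v hv => by_contra fun h => hne (hfree t v h hv)
    have hnz : r t - 1 ∈ nonZeroDivisors S := by
      rw [mem_nonZeroDivisors_iff_right]
      intro x hx
      rw [mul_comm] at hx
      refine Subtype.ext (AddMonoidHom.ext fun v => ?_)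
      have h1 : ((r t - 1) * x : S).1 = 0 := by rw [hx]; rfl
      have h2 : ((ρ t - 1) * x.1 : AddMonoid.End V) = 0 := h1
      have h3 : (ρ t - 1 : AddMonoid.End V) (x.1 v) = 0 := congrArg (fun e : AddMonoid.End V => e v) h2
      have h4 : ρ t (x.1 v) - x.1 v = 0 := h3
      exact hinj _ (sub_eq_zero.1 h4)
    have hu : IsUnit (r t - 1) := isUnit_iff_mem_nonZeroDivisors_of_finite.2 hnz
    have hmem : r t - 1 ∈ m := by
      rw [← Ideal.Quotient.eq_zero_iff_mem, map_sub, map_one]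
      have : Ideal.Quotient.mk m (r t) = 1 := ht
      rw [this, sub_self]
    exact hm.ne_top (Ideal.eq_top_of_isUnit_mem _ hmem hu)
  have : Finite (S ⧸ m) := Finite.of_surjective (Ideal.Quotient.mk m) Ideal.Quotient.mk_surjective
  have : Finite (S ⧸ m)ˣ := inferInstance
  let g : T →* (S ⧸ m)ˣ := f.toHomUnits
  have hg : ∀ t, g t = 1 → ρ t = 1 := by
    intro t ht
    apply key
    have : ((g t : (S ⧸ m)ˣ) : S ⧸ m) = f t := rfl
    rw [← this, ht]
    rfl
  have : IsCyclic g.range := inferInstance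
  obtain ⟨⟨_, s, rfl⟩, hs⟩ := IsCyclic.exists_generator (α := g.range)
  refine ⟨s, fun x => ?_⟩
  obtain ⟨k, hk⟩ := Subgroup.mem_zpowers_iff.1 (hs ⟨g x, x, rfl⟩)
  refine ⟨-k, hg _ ?_⟩
  have h1 : g s ^ k = g x := congrArg Subtype.val hk
  rw [map_mul, map_zpow, ← h1, ← zpow_add, neg_add_cancel, zpow_zero]

theorem FCY : FCY_stmt := by
  intro G _ _ D C T hD hDc hCT hTN hC hcomm hfree
  classical
  let _ : CommGroup D := { (inferInstance : Group D) with mul_comm := fun a b => Subtype.ext (hDc a a.2 b b.2) }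
  have hmem : ∀ t : T, ∀ u : D, (t : G) * u * (t : G)⁻¹ ∈ D := fun t u =>
    (Subgroup.mem_normalizer_iff.1 (hTN t.2) u).1 u.2
  let φ : T → (D →* D) := fun t =>
    { toFun := fun u => ⟨(t : G) * u * (t : G)⁻¹, hmem t u⟩
      map_one' := Subtype.ext (by
        change (t : G) * 1 * (t : G)⁻¹ = 1
        group)
      map_mul' := fun a b => Subtype.ext (by
        change (t : G) * (a * b) * (t : G)⁻¹ = ((t : G) * a * (t : G)⁻¹) * ((t : G) * b * (t : G)⁻¹)
        group) }
  let ρ : T →* AddMonoid.End (Additive D) :=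
    { toFun := fun t => MonoidHom.toAdditive (φ t)
      map_one' := by
        refine AddMonoidHom.ext fun v => ?_
        refine Subtype.ext ?_
        change ((1 : T) : G) * (v.toMul : G) * ((1 : T) : G)⁻¹ = (v.toMul : G)
        simp
      map_mul' := fun a b => by
        refine AddMonoidHom.ext fun v => ?_
        refine Subtype.ext ?_
        change ((a * b : T) : G) * (v.toMul : G) * ((a * b : T) : G)⁻¹ =
          (a : G) * ((b : G) * (v.toMul : G) * (b : G)⁻¹) * (a : G)⁻¹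
        simp [mul_assoc] }
  have hρ : ∀ (t : T) (v : Additive D), ((ρ t v).toMul : G) = (t : G) * (v.toMul : G) * (t : G)⁻¹ := fun _ _ => rfl
  have hone : ∀ t : T, (t : G) ∈ C → ρ t = 1 := by
    intro t ht
    refine AddMonoidHom.ext fun v => ?_
    refine Subtype.ext ?_
    change (t : G) * (v.toMul : G) * (t : G)⁻¹ = (v.toMul : G)
    rw [hC _ ht _ v.toMul.2, mul_assoc, mul_inv_cancel, mul_one]
  obtain ⟨u, hu1⟩ := Subgroup.ne_bot_iff_exists_ne_one.1 hD
  have : Nontrivial D := ⟨⟨u, 1, fun h => hu1 h⟩⟩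
  obtain ⟨s, hs⟩ := FCY_aux (Additive D) T ρ (by
      intro s t
      have h := hone (s * t * s⁻¹ * t⁻¹) (hcomm s s.2 t t.2)
      have h2 : s * t = (s * t * s⁻¹ * t⁻¹) * (t * s) := by group
      rw [← map_mul, ← map_mul, h2, map_mul, h, one_mul]) (by
      intro t v hv htv
      apply hone
      have h1 : (t : G) * (v.toMul : G) * (t : G)⁻¹ = (v.toMul : G) := by
        rw [← hρ, htv]
      refine hfree t t.2 v.toMul v.toMul.2 (fun h => hv ?_) ?_
      · exact Subtype.ext h
      · calc (t : G) * (v.toMul : G) = (t : G) * (v.toMul : G) * (t : G)⁻¹ * t := by group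
          _ = (v.toMul : G) * t := by rw [h1])
  refine ⟨s, s.2, fun x hx => ?_⟩
  obtain ⟨k, hk⟩ := hs ⟨x, hx⟩
  refine ⟨k, ?_⟩
  have h1 : ((s ^ k * ⟨x, hx⟩ : T) : G) = (s : G) ^ k * x := by simp
  rw [← h1]
  refine hfree _ (Subtype.prop _) u u.2 (fun h => hu1 (Subtype.ext h)) ?_
  have h2 := hρ (s ^ k * ⟨x, hx⟩) (Additive.ofMul u)
  rw [hk] at h2
  have h3 : (u : G) = ((s ^ k * ⟨x, hx⟩ : T) : G) * (u : G) * ((s ^ k * ⟨x, hx⟩ : T) : G)⁻¹ := h2
  calc ((s ^ k * ⟨x, hx⟩ : T) : G) * (u : G)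
      = ((s ^ k * ⟨x, hx⟩ : T) : G) * (u : G) * ((s ^ k * ⟨x, hx⟩ : T) : G)⁻¹ * ((s ^ k * ⟨x, hx⟩ : T) : G) := by group
    _ = (u : G) * ((s ^ k * ⟨x, hx⟩ : T) : G) := by rw [← h3]

end Pool.Agent.FI
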